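import Pool.Agent.H74.SubLat

set_option autoImplicit false

namespace Pool.Agent.Results.MP_622f37_al.AllFail

open Pool.Agent.H74.SubLat FirstOrder

lemma toDiv (L : Type) [Lattice L] : InKField L → InKDiv L := by
  rintro ⟨F, V, _, _, _, h⟩
  exact ⟨F, V, _, _, _, h⟩

lemma eval_prod {A B : Type} [Lattice A] [Lattice B] (v : ℕ → A × B) (t : Tm) :
    t.eval v = (t.eval fun n => (v n).1, t.eval fun n => (v n).2) := by
  induction t with
  | var n => rfl
  | meet s t h1 h2 => simp only [Tm.eval, h1, h2]; rfl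
  | join s t h1 h2 => simp only [Tm.eval, h1, h2]; rfl

lemma noId : ¬ ∃ S : Set (Tm × Tm), ∀ (L : Type) [Lattice L] [Nonempty L], SatId L S ↔ InKField L := by
  rintro ⟨S, H⟩
  have h1 := (H (Submodule (ZMod 2) (Fin 3 → ZMod 2))).2
    ⟨ZMod 2, _, _, _, _, id, Function.injective_id, fun _ _ => rfl, fun _ _ => rfl⟩
  have h2 := (H (Submodule ℚ (Fin 3 → ℚ))).2
    ⟨ℚ, _, _, _, _, id, Function.injective_id, fun _ _ => rfl, fun _ _ => rfl⟩
  refine not_mem 2 Nat.prime_two (toDiv _ ((H _).1 fun e he v => ?_))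
  rw [eval_prod, eval_prod, h1 e he, h2 e he]

/-- The class of lattices embeddable into subspace lattices over fields is specified neither by a
set of identities, nor by a finite set of sentences, nor by a finite set of identities. -/
theorem result :
    (¬ ∃ S : Set (Tm × Tm), ∀ (L : Type) [Lattice L] [Nonempty L], SatId L S ↔ InKField L) ∧
    (¬ ∃ T : lang.Theory, T.Finite ∧ ∀ (L : Type) [Lattice L] [Nonempty L], L ⊨ T ↔ InKField L) ∧
    ¬ ∃ S : Set (Tm × Tm), S.Finite ∧
      ∀ (L : Type) [Lattice L] [Nonempty L], SatId L S ↔ InKField L :=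
  ⟨noId, not_fin InKField toDiv fun _ _ W _ _ h => ⟨ℚ, W, _, _, _, h⟩,
    fun ⟨S, _, h⟩ => noId ⟨S, h⟩⟩

end Pool.Agent.Results.MP_622f37_al.AllFail
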